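import Mathlib
import Pool.Agent.Helper74.CubicSS.Defs
import Pool.Agent.Helper74.CubicSS.Proof

/-!
# Vanishing of late columns of the cubic-dimension spectral sequence

For every `r` there is an explicit number, depending on `r` only, beyond which all columns of the
first page `E¹_{p,q}(n,r)` vanish, for all `n` at once and over every commutative ring.
-/

namespace Pool.Agent.Results.MP_a4f165_gt.LateColumnsVanish

open Pool.Agent.Helper74.CubicSS

/-- **Vanishing of late columns**: `E¹_{p,q}(n,r) = 0` for all `n` and all integers `p, q` with
`p > s(r) = (r+1) + (r+1)^2 + ... + (r+1)^r`, over every commutative ring `k`. -/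
theorem result (r : ℕ) (k : Type*) [CommRing k] (n : ℕ) (p q : ℤ)
    (hp : ((∑ i ∈ Finset.Icc 1 r, (r + 1) ^ i : ℕ) : ℤ) < p) :
    Subsingleton (E1 k n r p q) :=
  main r k n p q hp

end Pool.Agent.Results.MP_a4f165_gt.LateColumnsVanish
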